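import Pool.Agent.N718.PC.MeanQ
import Pool.Agent.TH892.FullBox4

set_option autoImplicit false

/-!
From the second moment for each window `(K₁, K]` to all windows simultaneously.
-/

namespace Pool.Agent.N718.PC

open Finset Polynomial Filter
open Pool.Agent.H442R2.EHI (evt_log_pow evt_log_ge)
open Pool.Agent.H300R2.BH
open Pool.Agent.H300R2.FB

/-- from the second moment for each window `(K₁, K]` to all `K` simultaneously -/
lemma all_V {ι κ : Type*} (T : Finset ι) (Q : Finset κ) (S : κ → ι → ℕ → ℂ) (U w H : ℕ) (a : ℝ) (B : ℕ)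
    (hL : 8 ≤ Real.log H) (hQ : (Q.card : ℝ) ≤ Real.log H ^ w)
    (hS0 : ∀ q ∈ Q, ∀ c ∈ T, S q c 0 = 0)
    (hSd : ∀ q ∈ Q, ∀ c ∈ T, ∀ K K' : ℕ, K ≤ K' → ‖S q c K' - S q c K‖ ≤ (K' : ℝ) - K)
    (hmean : ∀ q ∈ Q, ∀ K K1 : ℕ, a ≤ K → K * Real.log H ^ B ≤ H → K1 ≤ K →
      (K : ℝ) ≤ K1 * Real.log H ^ (U + 3) →
      ∑ c ∈ T, ‖S q c K - S q c K1‖ ^ 2 ≤ T.card * (K : ℝ) ^ 2 / Real.log H ^ (4 * U + 9 + w))
    (ha : Real.log H ^ (U + 3) ≤ a) :
    ∃ Bad : Finset ι, Bad ⊆ T ∧ (Bad.card : ℝ) ≤ T.card / Real.log H ^ U ∧ ∀ c ∈ T, c ∉ Bad → ∀ q ∈ Q,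
      ∀ K : ℕ, 4 * a ≤ K → (K : ℝ) * Real.log H ^ (B + 1) ≤ H → ‖S q c K‖ ≤ K / Real.log H ^ U := by
  classical
  obtain ⟨L, hLdef⟩ : ∃ L, L = Real.log H := ⟨_, rfl⟩
  rw [← hLdef] at hL hQ hmean ha ⊢
  have hL0 : 0 < L := by linarith
  have hL1 : 1 ≤ L := by linarith
  have hLp0 : ∀ n : ℕ, 0 < L ^ n := fun n => by positivity
  have hLp : ∀ n : ℕ, 1 ≤ L ^ n := fun n => one_le_pow₀ hL1
  have ha1 : 1 ≤ a := (hLp _).trans ha
  obtain ⟨η, hη⟩ : ∃ η : ℝ, η = 1 / L ^ (U + 3) := ⟨_, rfl⟩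
  have hη0 : 0 < η := by rw [hη]; positivity
  have hη1 : η ≤ 1 := by
    rw [hη, div_le_one (hLp0 _)]
    exact hLp _
  obtain ⟨G, hG⟩ : ∃ G : ℕ → ℕ, ∀ i, G i = ⌊(1 + η) ^ i⌋₊ := ⟨_, fun _ => rfl⟩
  obtain ⟨G1, hG1⟩ : ∃ G1 : ℕ → ℕ, ∀ i, G1 i = ⌈(G i : ℝ) / L ^ (U + 3)⌉₊ := ⟨_, fun _ => rfl⟩
  obtain ⟨N, hN⟩ : ∃ N : ℕ, N = ⌊2 * L ^ (U + 4)⌋₊ + 1 := ⟨_, rfl⟩
  have hG1le : ∀ i, G1 i ≤ G i := by
    intro i
    rw [hG1, Nat.ceil_le]
    exact div_le_self (Nat.cast_nonneg _) (hLp _)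
  have hG1ge : ∀ i, (G i : ℝ) ≤ G1 i * L ^ (U + 3) := by
    intro i
    rw [← div_le_iff₀ (hLp0 _), hG1]
    exact Nat.le_ceil _
  have hG1up : ∀ i, a ≤ G i → (G1 i : ℝ) ≤ 2 * (G i / L ^ (U + 3)) := by
    intro i hi
    have h1 : (G1 i : ℝ) < G i / L ^ (U + 3) + 1 := by
      rw [hG1]
      exact Nat.ceil_lt_add_one (by positivity)
    have h2 : 1 ≤ (G i : ℝ) / L ^ (U + 3) := by
      rw [le_div_iff₀ (hLp0 _), one_mul]
      exact ha.trans hi
    linarith
  obtain ⟨Bd, hBd⟩ : ∃ Bd : ℕ × κ → Finset ι, ∀ i, Bd i = T.filter (fun c => (a ≤ G i.1 ∧ G i.1 * L ^ B ≤ H) ∧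
    G i.1 / L ^ (U + 2) < ‖S i.2 c (G i.1) - S i.2 c (G1 i.1)‖) := ⟨_, fun _ => rfl⟩
  have hcard : ∀ i ∈ range (N + 1) ×ˢ Q, ((Bd i).card : ℝ) ≤ T.card / L ^ (2 * U + 5 + w) := by
    rintro ⟨i, q⟩ hiq
    rw [mem_product] at hiq
    by_cases had : a ≤ G i ∧ G i * L ^ B ≤ H
    · have hGpos : (0:ℝ) < G i := by linarith [had.1]
      have h1 : ((Bd (i, q)).card : ℝ) * (G i / L ^ (U + 2)) ^ 2 ≤ T.card * (G i : ℝ) ^ 2 / L ^ (4 * U + 9 + w) := by
        calc ((Bd (i, q)).card : ℝ) * (G i / L ^ (U + 2)) ^ 2 = ∑ _c ∈ Bd (i, q), (G i / L ^ (U + 2)) ^ 2 := by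
              rw [sum_const, nsmul_eq_mul]
          _ ≤ ∑ c ∈ Bd (i, q), ‖S q c (G i) - S q c (G1 i)‖ ^ 2 := by
              refine sum_le_sum fun c hc => ?_
              rw [hBd, mem_filter] at hc
              exact pow_le_pow_left₀ (by positivity) hc.2.2.le 2
          _ ≤ ∑ c ∈ T, ‖S q c (G i) - S q c (G1 i)‖ ^ 2 := by
              apply sum_le_sum_of_subset_of_nonneg
              · rw [hBd]
                exact filter_subset _ _
              · intro _ _ _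
                positivity
          _ ≤ _ := hmean q hiq.2 _ _ had.1 had.2 (hG1le i) (hG1ge i)
      have h2 : 0 < ((G i : ℝ) / L ^ (U + 2)) ^ 2 := by positivity
      have h3 : ((Bd (i, q)).card : ℝ) * (G i / L ^ (U + 2)) ^ 2 ≤
          (T.card / L ^ (2 * U + 5 + w)) * (G i / L ^ (U + 2)) ^ 2 := by
        refine h1.trans (le_of_eq ?_)
        rw [show 4 * U + 9 + w = (2 * U + 5 + w) + ((U + 2) + (U + 2)) by ring, pow_add L (2 * U + 5 + w) ((U + 2) + (U + 2)),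
          pow_add L (U + 2) (U + 2)]
        field_simp
      exact le_of_mul_le_mul_right h3 h2
    · have h1 : Bd (i, q) = ∅ := by
        rw [hBd]
        apply filter_eq_empty_iff.mpr
        intro c _ h
        exact had h.1
      rw [h1, card_empty, Nat.cast_zero]
      positivity
  refine ⟨(range (N + 1) ×ˢ Q).biUnion Bd, ?_, ?_, ?_⟩
  · intro c hc
    rw [mem_biUnion] at hc
    obtain ⟨i, _, hi⟩ := hc
    rw [hBd, mem_filter] at hi
    exact hi.1
  · have hN1 : ((N + 1 : ℕ) : ℝ) ≤ L ^ (U + 5) := by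
      have h1 : (N : ℝ) ≤ 2 * L ^ (U + 4) + 1 := by
        rw [hN]
        push_cast
        have := Nat.floor_le (show 0 ≤ 2 * L ^ (U + 4) by positivity)
        linarith
      push_cast
      have h2 := hLp (U + 4)
      have h3 : L ^ (U + 5) = L * L ^ (U + 4) := by rw [show U + 5 = U + 4 + 1 by ring, pow_succ]; ring
      rw [h3]
      nlinarith
    calc ((((range (N + 1) ×ˢ Q).biUnion Bd)).card : ℝ) ≤ ∑ i ∈ range (N + 1) ×ˢ Q, ((Bd i).card : ℝ) := by
          exact_mod_cast card_biUnion_le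
      _ ≤ ∑ _i ∈ range (N + 1) ×ˢ Q, ((T.card : ℝ) / L ^ (2 * U + 5 + w)) := sum_le_sum fun i hi => hcard i hi
      _ = ((N + 1 : ℕ) : ℝ) * Q.card * (T.card / L ^ (2 * U + 5 + w)) := by
          rw [sum_const, card_product, card_range, nsmul_eq_mul]
          push_cast
          ring
      _ ≤ L ^ (U + 5) * L ^ w * (T.card / L ^ (2 * U + 5 + w)) := by gcongr
      _ = T.card / L ^ U := by
          rw [show 2 * U + 5 + w = U + ((U + 5) + w) by ring, pow_add L U ((U + 5) + w), pow_add L (U + 5) w]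
          field_simp
  · intro c hcT hcB q hq K hK1 hK2
    have hKr : (1:ℝ) ≤ K := by linarith
    obtain ⟨i, hi1, hi2⟩ := exists_nat_pow_near hKr (show 1 < 1 + η by linarith)
    have hHr : (K:ℝ) ≤ H := by
      calc (K:ℝ) ≤ K * L ^ (B + 1) := le_mul_of_one_le_right (by linarith) (hLp _)
        _ ≤ H := hK2
    have hiN : i + 1 ≤ N := by
      have h1 : (i:ℝ) * Real.log (1 + η) ≤ L := by
        rw [← Real.log_pow, hLdef]
        exact Real.log_le_log (by positivity) (hi1.trans hHr)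
      have h2 : η / 2 ≤ Real.log (1 + η) := by
        have h3 := Real.one_sub_inv_le_log_of_pos (show 0 < 1 + η by linarith)
        refine le_trans ?_ h3
        have h4 : 1 - (1 + η)⁻¹ = η / (1 + η) := by field_simp; ring
        rw [h4]
        apply div_le_div_of_nonneg_left hη0.le (by linarith) (by linarith)
      have h3 : (i:ℝ) * (η / 2) ≤ L := le_trans (by gcongr) h1
      have h4 : (i:ℝ) ≤ 2 * L ^ (U + 4) := by
        have h5 : (i:ℝ) * (η / 2) * (2 * L ^ (U + 3)) ≤ L * (2 * L ^ (U + 3)) := by gcongr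
        have h6 : (i:ℝ) * (η / 2) * (2 * L ^ (U + 3)) = i := by
          rw [hη]
          field_simp
        rw [h6] at h5
        refine h5.trans (le_of_eq ?_)
        rw [show U + 4 = U + 3 + 1 by ring, pow_succ]
        ring
      have h5 : i ≤ ⌊2 * L ^ (U + 4)⌋₊ := Nat.le_floor h4
      omega
    have hGi : G i ≤ K := by
      have h1 : (G i : ℝ) ≤ K := by rw [hG]; exact (Nat.floor_le (by positivity)).trans hi1
      exact_mod_cast h1
    have hpow : (1 + η) ^ (i + 1) = (1 + η) ^ i + η * (1 + η) ^ i := by ring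
    have hG3 : (1 + η) ^ i < (G i : ℝ) + 1 := by rw [hG]; exact Nat.lt_floor_add_one _
    have hηK : η * (1 + η) ^ i ≤ η * K := by gcongr
    have hηK1 : 1 ≤ η * K := by
      rw [hη, div_mul_eq_mul_div, one_mul, one_le_div (hLp0 _)]
      linarith
    have hdiff : (K : ℝ) - G i ≤ 2 * (η * K) := by linarith
    have hG5 : a ≤ G i := by
      have h1 : (K:ℝ) < 2 * (1 + η) ^ i := by
        refine lt_of_lt_of_le hi2 ?_
        rw [hpow]
        have : η * (1 + η) ^ i ≤ 1 * (1 + η) ^ i := by gcongr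
        linarith
      linarith
    have hGiK : (G i : ℝ) ≤ K := by exact_mod_cast hGi
    have hG7 : (G i : ℝ) * L ^ B ≤ H := by
      calc (G i : ℝ) * L ^ B ≤ K * L ^ B := by gcongr
        _ ≤ K * L ^ (B + 1) := by
            have := pow_le_pow_right₀ hL1 (show B ≤ B + 1 by omega)
            exact mul_le_mul_of_nonneg_left this (by linarith)
        _ ≤ H := hK2
    have hn1 : ‖S q c (G i) - S q c (G1 i)‖ ≤ G i / L ^ (U + 2) := by
      by_contra hh
      apply hcB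
      rw [mem_biUnion]
      refine ⟨(i, q), by rw [mem_product, mem_range]; exact ⟨by omega, hq⟩, ?_⟩
      rw [hBd, mem_filter]
      exact ⟨hcT, ⟨hG5, hG7⟩, not_le.mp hh⟩
    have h1 := hSd q hq c hcT _ _ hGi
    have h2 := hSd q hq c hcT _ _ (Nat.zero_le (G1 i))
    rw [hS0 q hq c hcT, sub_zero, Nat.cast_zero, sub_zero] at h2
    have h3 := hG1up i hG5
    have e1 : S q c K = (S q c K - S q c (G i)) + (S q c (G i) - S q c (G1 i)) + S q c (G1 i) := by ring
    rw [e1]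
    have h4 : (G i : ℝ) / L ^ (U + 3) ≤ K / L ^ (U + 3) := by gcongr
    have h5 : (G i : ℝ) / L ^ (U + 2) ≤ K / L ^ (U + 2) := by gcongr
    have h6 : η * K = K / L ^ (U + 3) := by rw [hη]; ring
    rw [h6] at hdiff
    calc ‖(S q c K - S q c (G i)) + (S q c (G i) - S q c (G1 i)) + S q c (G1 i)‖ ≤
        ‖S q c K - S q c (G i)‖ + ‖S q c (G i) - S q c (G1 i)‖ + ‖S q c (G1 i)‖ := norm_add₃_le
      _ ≤ 2 * (K / L ^ (U + 3)) + K / L ^ (U + 2) + 2 * (K / L ^ (U + 3)) := by linarith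
      _ = K / L ^ U * (4 / L ^ 3 + 1 / L ^ 2) := by
          rw [pow_add L U 3, pow_add L U 2]
          field_simp
          ring
      _ ≤ K / L ^ U * 1 := by
          gcongr
          have h7 : (4:ℝ) / L ^ 3 ≤ 1 / 2 := by
            rw [div_le_div_iff₀ (by positivity) (by norm_num)]
            have : (8:ℝ) ^ 3 ≤ L ^ 3 := by gcongr
            linarith
          have h8 : (1:ℝ) / L ^ 2 ≤ 1 / 2 := by
            rw [div_le_div_iff₀ (by positivity) (by norm_num)]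
            have : (8:ℝ) ^ 2 ≤ L ^ 2 := by gcongr
            linarith
          linarith
      _ = _ := mul_one _

end Pool.Agent.N718.PC
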