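import Pool.Agent.N718.PC.AllV

set_option autoImplicit false

/-!
Sums of bounded functions with small exponential sums over the values of almost all polynomials of height at most `H`.
-/

namespace Pool.Agent.N718.PC

open Finset Polynomial Filter
open Pool.Agent.H442R2.EHI (evt_log_pow evt_log_ge)
open Pool.Agent.H300R2.BH
open Pool.Agent.H300R2.FB
open Pool.Agent.H373R2.T7 (SupSmall)
open Pool.Agent.TH892 (box pol sum_box card_box)

/-- sum over the `k ≤ K` in a residue class -/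
noncomputable def Sq (h : ℕ → ℂ) (q r : ℕ) (F : ℤ[X]) (K : ℕ) : ℂ :=
  ∑ k ∈ (Ioc 0 K).filter (fun k => k % q = r), hz h (F.eval (k : ℤ))

lemma Sq_sub (h : ℕ → ℂ) (q r : ℕ) (F : ℤ[X]) {K1 K : ℕ} (hK : K1 ≤ K) :
    Sq h q r F K - Sq h q r F K1 = ∑ k ∈ (Ioc K1 K).filter (fun k => k % q = r), hz h (F.eval (k : ℤ)) := by
  unfold Sq
  simp only [sum_filter]
  rw [← sum_Ioc_consecutive _ (Nat.zero_le K1) hK]
  ring

lemma Sq_zero (h : ℕ → ℂ) (q r : ℕ) (F : ℤ[X]) : Sq h q r F 0 = 0 := by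
  unfold Sq
  simp

lemma Sq_diff {h : ℕ → ℂ} (hb : ∀ n, ‖h n‖ ≤ 1) (q r : ℕ) (F : ℤ[X]) {K1 K : ℕ} (hK : K1 ≤ K) :
    ‖Sq h q r F K - Sq h q r F K1‖ ≤ (K : ℝ) - K1 := by
  rw [Sq_sub h q r F hK]
  refine (norm_sum_le _ _).trans ?_
  calc ∑ k ∈ (Ioc K1 K).filter (fun k => k % q = r), ‖hz h (F.eval (k : ℤ))‖
      ≤ ∑ k ∈ (Ioc K1 K).filter (fun k => k % q = r), (1:ℝ) := sum_le_sum fun k _ => hz_le hb _
    _ = ((Ioc K1 K).filter (fun k => k % q = r)).card := by simp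
    _ ≤ (Ioc K1 K).card := by exact_mod_cast card_filter_le _ _
    _ = _ := by rw [Nat.card_Ioc, Nat.cast_sub hK]

/-- second moment over the box -/
lemma mean_b {h : ℕ → ℂ} (hb : ∀ n, ‖h n‖ ≤ 1) (hs : SupSmall h) (j : ℕ) (hj : 1 ≤ j) (ε : ℝ) (hε : 0 < ε)
    (V U W : ℕ) : ∃ B H0 : ℕ, ∀ H : ℕ, H0 ≤ H → ∀ K K1 : ℕ, (H : ℝ) ^ ε ≤ K → (K : ℝ) * Real.log H ^ B ≤ H →
    K1 ≤ K → (K : ℝ) ≤ K1 * Real.log H ^ V → ∀ q0 r0 : ℕ, 1 ≤ q0 → (q0 : ℝ) ≤ Real.log H ^ W →
    ∑ c ∈ box j H, ‖Sq h q0 r0 (pol c) K - Sq h q0 r0 (pol c) K1‖ ^ 2 ≤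
      ((box j H).card : ℝ) * (K : ℝ) ^ 2 / Real.log H ^ U := by
  obtain ⟨B, H0, hm⟩ := mean_one hb hs j hj ε hε V U W
  refine ⟨B, H0, fun H hH K K1 h1 h2 h3 h4 q0 r0 h5 h6 => ?_⟩
  have := hm H hH K K1 h1 h2 h3 h4 q0 r0 h5 h6
  rw [sum_box hj H (fun f _ => ‖Sq h q0 r0 f K - Sq h q0 r0 f K1‖ ^ 2), card_box hj H]
  simp only [Sq_sub h q0 r0 _ h3]
  exact this

/-- the conclusion for one polynomial -/
def GoodL (h : ℕ → ℂ) (ε : ℝ) (U B H W : ℕ) (F : ℤ[X]) : Prop :=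
  ∀ u v : ℕ, u ≤ v → (H : ℝ) ^ ε ≤ v → (v : ℝ) * Real.log H ^ B ≤ H → ∀ q r : ℕ, 1 ≤ q → (q : ℝ) ≤ Real.log H ^ W →
    ‖∑ k ∈ (Ioc u v).filter (fun k => k % q = r), hz h (F.eval (k : ℤ))‖ ≤ v / Real.log H ^ U

theorem exc_pos {h : ℕ → ℂ} (hb : ∀ n, ‖h n‖ ≤ 1) (hs : SupSmall h) (j : ℕ) (hj : 1 ≤ j) (ε : ℝ) (hε : 0 < ε)
    (U W : ℕ) : ∃ B H0 : ℕ, ∀ H : ℕ, H0 ≤ H → ∃ Bad : Finset (Fin (j + 1) → ℤ), Bad ⊆ box j H ∧
      (Bad.card : ℝ) ≤ (box j H).card / Real.log H ^ U ∧ ∀ c ∈ box j H, c ∉ Bad → GoodL h ε U B H W (pol c) := by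
  classical
  obtain ⟨B, x1, hm⟩ := mean_b hb hs j hj (ε / 2) (by positivity) (U + 1 + 3) (4 * (U + 1) + 9 + (2 * W + 1)) W
  have hev : ∀ᶠ H : ℕ in atTop, x1 ≤ H ∧ 8 ≤ Real.log H ∧ Real.log H ^ (U + 1 + 3) ≤ (H:ℝ) ^ (ε / 2) ∧
      Real.log H ^ 1 ≤ (H:ℝ) ^ (ε / 2) ∧ Real.log H ^ (U + 2) ≤ (H:ℝ) ^ (ε / 2) ∧ 1 ≤ H := by
    filter_upwards [eventually_ge_atTop x1, evt_log_ge 8, evt_log_pow (U + 1 + 3) (ε / 2) (by positivity),
      evt_log_pow 1 (ε / 2) (by positivity), evt_log_pow (U + 2) (ε / 2) (by positivity), eventually_ge_atTop 1]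
      with H h1 h2 h3 h4 h5 h6
    exact ⟨h1, h2, h3, h4, h5, h6⟩
  obtain ⟨H0, hH0⟩ := eventually_atTop.mp hev
  refine ⟨B + 1, H0, fun H hH => ?_⟩
  obtain ⟨hx1, hL8, hLa, hLb, hLc, hH1⟩ := hH0 H hH
  have hmb := hm H hx1
  obtain ⟨L, hLdef⟩ : ∃ L, L = Real.log H := ⟨_, rfl⟩
  have hL8' : 8 ≤ L := by rw [hLdef]; exact hL8
  have hL0 : 0 < L := by linarith
  have hL1 : 1 ≤ L := by linarith
  have hLp0 : ∀ n : ℕ, 0 < L ^ n := fun n => by positivity
  have hLp : ∀ n : ℕ, 1 ≤ L ^ n := fun n => one_le_pow₀ hL1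
  have hHr : (1:ℝ) ≤ H := by exact_mod_cast hH1
  have hHε : (H:ℝ) ^ ε = (H:ℝ) ^ (ε / 2) * (H:ℝ) ^ (ε / 2) := by
    rw [← Real.rpow_add (by linarith)]
    congr 1
    ring
  have hHh0 : (0:ℝ) < (H:ℝ) ^ (ε / 2) := Real.rpow_pos_of_pos (by linarith) _
  -- the residue classes
  obtain ⟨Qm, hQm⟩ : ∃ Qm, Qm = ⌊L ^ W⌋₊ := ⟨_, rfl⟩
  obtain ⟨Q, hQ⟩ : ∃ Q : Finset (ℕ × ℕ), Q = Icc 1 Qm ×ˢ range (Qm + 1) := ⟨_, rfl⟩
  have hQmL : (Qm : ℝ) ≤ L ^ W := by rw [hQm]; exact Nat.floor_le (by positivity)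
  have hQc : (Q.card : ℝ) ≤ L ^ (2 * W + 1) := by
    rw [hQ, card_product, Nat.card_Icc, card_range, Nat.add_sub_cancel]
    push_cast
    calc (Qm : ℝ) * (Qm + 1) ≤ L ^ W * (L ^ W + L ^ W) := by
          gcongr
          exact hLp _
      _ = 2 * (L ^ W * L ^ W) := by ring
      _ ≤ L * (L ^ W * L ^ W) := by gcongr; linarith
      _ = L ^ (2 * W + 1) := by ring
  obtain ⟨Bad, hB1, hB2, hB3⟩ := all_V (box j H) Q (fun q c K => Sq h q.1 q.2 (pol c) K) (U + 1) (2 * W + 1) H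
    ((H:ℝ) ^ (ε / 2)) B hL8 (by rw [← hLdef]; exact hQc) (fun q _ c _ => Sq_zero h q.1 q.2 (pol c))
    (fun q _ c _ K K' hK => Sq_diff hb q.1 q.2 (pol c) hK)
    (by
      intro q hq K K1 h1 h2 h3 h4
      rw [hQ, mem_product, mem_Icc] at hq
      refine hmb K K1 h1 h2 h3 h4 q.1 q.2 hq.1.1 ?_
      rw [← hLdef]
      exact le_trans (by exact_mod_cast hq.1.2) hQmL) hLa
  rw [← hLdef] at hB2 hB3 hLa hLb hLc
  refine ⟨Bad, hB1, ?_, ?_⟩
  · rw [← hLdef]
    refine hB2.trans ?_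
    apply div_le_div_of_nonneg_left (Nat.cast_nonneg _) (hLp0 _)
    exact pow_le_pow_right₀ hL1 (by omega)
  · intro c hc hcB u v huv hv hvB q r hq1 hqW
    rw [← hLdef] at hvB hqW ⊢
    by_cases hrq : r < q
    · have hqQ : (q, r) ∈ Q := by
        have h1 : q ≤ Qm := by rw [hQm]; exact Nat.le_floor hqW
        rw [hQ, mem_product, mem_Icc, mem_range]
        exact ⟨⟨hq1, h1⟩, by show r < Qm + 1; omega⟩
      rw [← Sq_sub h q r (pol c) huv]
      have h4a : 4 * (H:ℝ) ^ (ε / 2) ≤ v := by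
        refine le_trans ?_ hv
        rw [hHε]
        rw [pow_one] at hLb
        have : (4:ℝ) ≤ (H:ℝ) ^ (ε / 2) := by linarith
        gcongr
      have hv1 := hB3 c hc hcB (q, r) hqQ v h4a hvB
      have hv0 : (0:ℝ) ≤ v := Nat.cast_nonneg _
      have hu1 : ‖Sq h q r (pol c) u‖ ≤ 4 * (v / L ^ (U + 1)) := by
        by_cases hu : 4 * (H:ℝ) ^ (ε / 2) ≤ u
        · have huvr : (u:ℝ) ≤ v := by exact_mod_cast huv
          have h1 := hB3 c hc hcB (q, r) hqQ u hu (le_trans (by gcongr) hvB)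
          calc ‖Sq h q r (pol c) u‖ ≤ u / L ^ (U + 1) := h1
            _ ≤ v / L ^ (U + 1) := by gcongr
            _ ≤ 4 * (v / L ^ (U + 1)) := by
                have : 0 ≤ (v:ℝ) / L ^ (U + 1) := by positivity
                linarith
        · push Not at hu
          have h1 := Sq_diff hb q r (pol c) (Nat.zero_le u)
          rw [Sq_zero, sub_zero, Nat.cast_zero, sub_zero] at h1
          refine h1.trans (hu.le.trans ?_)
          have h2 : (H:ℝ) ^ (ε / 2) ≤ v / L ^ (U + 1) := by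
            rw [le_div_iff₀ (hLp0 _)]
            calc (H:ℝ) ^ (ε / 2) * L ^ (U + 1) ≤ (H:ℝ) ^ (ε / 2) * L ^ (U + 2) :=
                  mul_le_mul_of_nonneg_left (pow_le_pow_right₀ hL1 (by omega)) hHh0.le
              _ ≤ (H:ℝ) ^ (ε / 2) * (H:ℝ) ^ (ε / 2) := by gcongr
              _ = (H:ℝ) ^ ε := hHε.symm
              _ ≤ v := hv
          linarith
      calc ‖Sq h q r (pol c) v - Sq h q r (pol c) u‖ ≤ ‖Sq h q r (pol c) v‖ + ‖Sq h q r (pol c) u‖ := norm_sub_le _ _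
        _ ≤ v / L ^ (U + 1) + 4 * (v / L ^ (U + 1)) := add_le_add hv1 hu1
        _ = (v / L ^ U) * (5 / L) := by
            rw [pow_succ]
            field_simp
            ring
        _ ≤ (v / L ^ U) * 1 := by
            gcongr
            rw [div_le_one hL0]
            linarith
        _ = _ := mul_one _
    · have h1 : (Ioc u v).filter (fun k => k % q = r) = ∅ := by
        apply filter_eq_empty_iff.mpr
        intro k _ hk
        have := Nat.mod_lt k (show 0 < q by omega)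
        omega
      rw [h1, sum_empty, norm_zero]
      positivity

/-- all polynomials of degree at most `j` and height at most `H` -/
noncomputable def fbox (j H : ℕ) : Finset (Fin (j + 1) → ℤ) := Fintype.piFinset (fun _ => Icc (-(H : ℤ)) H)

lemma fbox_card (j H : ℕ) : ((fbox j H).card : ℝ) = (2 * H + 1 : ℝ) ^ (j + 1) := by
  unfold fbox
  rw [Fintype.card_piFinset]
  simp only [Int.card_Icc, prod_const, card_univ, Fintype.card_fin]
  push_cast
  congr 1
  have : ((((H : ℤ) + 1 - -(H : ℤ)).toNat : ℕ) : ℤ) = 2 * H + 1 := by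
    rw [Int.toNat_of_nonneg (by omega)]
    ring
  exact_mod_cast this

lemma box_card (j H : ℕ) : ((box j H).card : ℝ) ≤ (fbox j H).card := by
  have : (box j H).card ≤ (fbox j H).card := by
    apply card_le_card
    intro c hc
    unfold Pool.Agent.TH892.box at hc
    unfold fbox
    rw [Fintype.mem_piFinset] at hc ⊢
    intro i
    have := hc i
    split_ifs at this with h
    · rw [mem_Icc] at this ⊢
      omega
    · exact this
  exact_mod_cast this

/-- the polynomials with last coefficient zero -/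
lemma zero_card (j H : ℕ) : (((fbox j H).filter (fun c => c (Fin.last j) = 0)).card : ℝ) * (2 * H + 1) ≤ (fbox j H).card := by
  classical
  have h1 : (fbox j H).filter (fun c => c (Fin.last j) = 0) ⊆
      Fintype.piFinset (fun i : Fin (j + 1) => if i = Fin.last j then {0} else Icc (-(H : ℤ)) H) := by
    intro c hc
    rw [mem_filter] at hc
    unfold fbox at hc
    rw [Fintype.mem_piFinset] at hc ⊢
    intro i
    split_ifs with h
    · rw [h, hc.2]; simp
    · exact hc.1 i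
  have h2 : (Fintype.piFinset (fun i : Fin (j + 1) => if i = Fin.last j then ({0} : Finset ℤ) else Icc (-(H : ℤ)) H)).card
      * (2 * H + 1) = (fbox j H).card := by
    unfold fbox
    rw [Fintype.card_piFinset, Fintype.card_piFinset, Fin.prod_univ_castSucc, Fin.prod_univ_castSucc]
    have h3 : ∀ i : Fin j, (if i.castSucc = Fin.last j then ({0} : Finset ℤ) else Icc (-(H : ℤ)) H) = Icc (-(H : ℤ)) H := by
      intro i
      rw [if_neg (Fin.castSucc_lt_last i).ne]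
    simp only [h3, if_true, card_singleton, mul_one, Int.card_Icc]
    have : ((H : ℤ) + 1 - -(H : ℤ)).toNat = 2 * H + 1 := by omega
    rw [this]
  calc (((fbox j H).filter (fun c => c (Fin.last j) = 0)).card : ℝ) * (2 * H + 1) ≤
      ((Fintype.piFinset (fun i : Fin (j + 1) => if i = Fin.last j then ({0} : Finset ℤ) else Icc (-(H : ℤ)) H)).card : ℝ)
      * (2 * H + 1) := by
        gcongr
    _ = _ := by exact_mod_cast h2

lemma hz_neg (h : ℕ → ℂ) (m : ℤ) : hz h (-m) = hz h m := by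
  unfold hz
  rw [neg_neg, add_comm]

lemma pol_neg {j : ℕ} (c : Fin (j + 1) → ℤ) : pol (-c) = -pol c := by
  unfold pol
  rw [← sum_neg_distrib]
  refine sum_congr rfl fun i _ => ?_
  simp

lemma good_neg {h : ℕ → ℂ} {ε : ℝ} {U B H W : ℕ} {F : ℤ[X]} (hg : GoodL h ε U B H W (-F)) : GoodL h ε U B H W F := by
  intro u v h1 h2 h3 q r h4 h5
  have := hg u v h1 h2 h3 q r h4 h5
  simpa only [eval_neg, hz_neg] using this

lemma good_mono {h : ℕ → ℂ} {ε : ℝ} {U B H W : ℕ} {F : ℤ[X]} (hL : 1 ≤ Real.log H) (hg : GoodL h ε (U + 1) B H W F) :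
    GoodL h ε U B H W F := by
  intro u v h1 h2 h3 q r h4 h5
  refine (hg u v h1 h2 h3 q r h4 h5).trans ?_
  apply div_le_div_of_nonneg_left (Nat.cast_nonneg _) (by positivity)
  exact pow_le_pow_right₀ hL (by omega)

/-- **all polynomials of height at most `H`** -/
theorem exc_full {h : ℕ → ℂ} (hb : ∀ n, ‖h n‖ ≤ 1) (hs : SupSmall h) (j : ℕ) (hj : 1 ≤ j) (ε : ℝ) (hε : 0 < ε)
    (U W : ℕ) : ∃ B H0 : ℕ, ∀ H : ℕ, H0 ≤ H → ∃ Bad : Finset (Fin (j + 1) → ℤ), Bad ⊆ fbox j H ∧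
      (Bad.card : ℝ) ≤ (fbox j H).card / Real.log H ^ U ∧ ∀ c ∈ fbox j H, c ∉ Bad → GoodL h ε U B H W (pol c) := by
  classical
  obtain ⟨B, x1, hm⟩ := exc_pos hb hs j hj ε hε (U + 1) W
  have hev : ∀ᶠ H : ℕ in atTop, x1 ≤ H ∧ 8 ≤ Real.log H ∧ Real.log H ^ (U + 1) ≤ (H:ℝ) ^ (1:ℝ) ∧ 1 ≤ H := by
    filter_upwards [eventually_ge_atTop x1, evt_log_ge 8, evt_log_pow (U + 1) 1 (by norm_num), eventually_ge_atTop 1]
      with H h1 h2 h3 h4
    exact ⟨h1, h2, h3, h4⟩
  obtain ⟨H0, hH0⟩ := eventually_atTop.mp hev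
  refine ⟨B, H0, fun H hH => ?_⟩
  obtain ⟨hx1, hL8, hLa, hH1⟩ := hH0 H hH
  rw [Real.rpow_one] at hLa
  obtain ⟨Bad, hB1, hB2, hB3⟩ := hm H hx1
  have hL0 : 0 < Real.log H := by linarith
  have hsub : box j H ⊆ fbox j H := by
    intro c hc
    unfold Pool.Agent.TH892.box at hc
    unfold fbox
    rw [Fintype.mem_piFinset] at hc ⊢
    intro i
    have := hc i
    split_ifs at this with h
    · rw [mem_Icc] at this ⊢
      omega
    · exact this
  have hnegm : ∀ c ∈ fbox j H, -c ∈ fbox j H := by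
    intro c hc
    unfold fbox at hc ⊢
    rw [Fintype.mem_piFinset] at hc ⊢
    intro i
    have := hc i
    rw [mem_Icc] at this ⊢
    rw [Pi.neg_apply]
    omega
  refine ⟨Bad ∪ Bad.image (fun c => -c) ∪ (fbox j H).filter (fun c => c (Fin.last j) = 0), ?_, ?_, ?_⟩
  · apply union_subset (union_subset (hB1.trans hsub) _) (filter_subset _ _)
    intro c hc
    rw [mem_image] at hc
    obtain ⟨c', hc', rfl⟩ := hc
    exact hnegm _ (hsub (hB1 hc'))
  · have h1 : (((Bad ∪ Bad.image (fun c => -c) ∪ (fbox j H).filter (fun c => c (Fin.last j) = 0)).card : ℕ) : ℝ) ≤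
        Bad.card + Bad.card + ((fbox j H).filter (fun c => c (Fin.last j) = 0)).card := by
      have h2 := card_union_le (Bad ∪ Bad.image (fun c => -c)) ((fbox j H).filter (fun c => c (Fin.last j) = 0))
      have h3 := card_union_le Bad (Bad.image (fun c => -c))
      have h4 : (Bad.image (fun c => -c)).card ≤ Bad.card := card_image_le
      have h5 : (Bad ∪ Bad.image (fun c => -c) ∪ (fbox j H).filter (fun c => c (Fin.last j) = 0)).card ≤
        Bad.card + Bad.card + ((fbox j H).filter (fun c => c (Fin.last j) = 0)).card := by omega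
      exact_mod_cast h5
    have h6 : (Bad.card : ℝ) ≤ (fbox j H).card / Real.log H ^ (U + 1) := by
      refine hB2.trans ?_
      gcongr
    have h7 : (((fbox j H).filter (fun c => c (Fin.last j) = 0)).card : ℝ) ≤ (fbox j H).card / Real.log H ^ (U + 1) := by
      rw [le_div_iff₀ (by positivity)]
      refine le_trans ?_ (zero_card j H)
      gcongr
      have : (0:ℝ) ≤ H := Nat.cast_nonneg _
      linarith
    have h8 : (3:ℝ) * ((fbox j H).card / Real.log H ^ (U + 1)) ≤ (fbox j H).card / Real.log H ^ U := by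
      have : (3:ℝ) * ((fbox j H).card / Real.log H ^ (U + 1)) = ((fbox j H).card / Real.log H ^ U) * (3 / Real.log H) := by
        rw [pow_succ]
        field_simp
      rw [this]
      apply mul_le_of_le_one_right (by positivity)
      rw [div_le_one hL0]
      linarith
    linarith
  · intro c hc hcB
    rw [mem_union, mem_union, mem_filter, not_or, not_or] at hcB
    obtain ⟨⟨n1, n2⟩, n3⟩ := hcB
    have hc0 : c (Fin.last j) ≠ 0 := fun h => n3 ⟨hc, h⟩
    have hcm := hc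
    unfold fbox at hcm
    rw [Fintype.mem_piFinset] at hcm
    rcases lt_or_gt_of_ne hc0 with hlt | hgt
    · apply good_neg
      rw [← pol_neg]
      apply good_mono (by linarith)
      apply hB3
      · unfold Pool.Agent.TH892.box
        rw [Fintype.mem_piFinset]
        intro i
        have h1 := hcm i
        rw [mem_Icc] at h1
        split_ifs with h
        · have h2 : i = Fin.last j := Fin.ext h
          rw [mem_Icc, Pi.neg_apply]
          rw [h2] at h1 ⊢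
          omega
        · rw [mem_Icc, Pi.neg_apply]
          omega
      · intro h
        apply n2
        rw [mem_image]
        exact ⟨-c, h, neg_neg c⟩
    · apply good_mono (by linarith)
      apply hB3 c _ n1
      unfold Pool.Agent.TH892.box
      rw [Fintype.mem_piFinset]
      intro i
      have h1 := hcm i
      split_ifs with h
      · have h2 : i = Fin.last j := Fin.ext h
        rw [mem_Icc] at h1 ⊢
        rw [h2] at h1 ⊢
        omega
      · exact h1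

end Pool.Agent.N718.PC
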