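import Pool.Agent.N718.PC.CoreQ
import Pool.Agent.H300R2.FB.Full2
import Pool.Agent.H373R2.T7.SupLiou

/-!
Second moment of `∑ h(|f(k)|)` over all polynomials `f` of height at most `H`, the argument `k` in a
residue class, for bounded functions `h` the exponential sums of which are small.
-/

namespace Pool.Agent.N718.PC

open Finset Polynomial Filter
open Pool.Agent.H442R2.EHI (evt_log_pow evt_log_ge norm_add_sq_le)
open Pool.Agent.H300R2.BH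
open Pool.Agent.H300R2.FB
open Pool.Agent.H373R2.T7 (SupSmall)

/-- `h(|m|)`, and `0` at `m = 0` -/
noncomputable def hz (h : ℕ → ℂ) (m : ℤ) : ℂ := fz h m + fz h (-m)

lemma fz_le {h : ℕ → ℂ} (hb : ∀ n, ‖h n‖ ≤ 1) (m : ℤ) : ‖fz h m‖ ≤ 1 := by
  unfold fz
  split_ifs
  · exact hb _
  · simp

lemma hz_le {h : ℕ → ℂ} (hb : ∀ n, ‖h n‖ ≤ 1) (m : ℤ) : ‖hz h m‖ ≤ 1 := by
  unfold hz fz
  split_ifs with h1 h2
  · omega
  · simpa using hb _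
  · simpa using hb _
  · simp

/-- truncation -/
noncomputable def tr (h : ℕ → ℂ) (x : ℕ) (n : ℕ) : ℂ := if n ≤ x then h n else 0

lemma fz_tr (h : ℕ → ℂ) (x : ℕ) (m : ℤ) (hm : m ≤ x) : fz (tr h x) m = fz h m := by
  unfold fz tr
  split_ifs with h1 h2
  · rfl
  · exfalso
    apply h2
    omega
  · rfl

lemma four {h : ℕ → ℂ} (hs : SupSmall h) (E1 E3 : ℕ) : ∃ x0 : ℕ, ∀ x : ℕ, x0 ≤ x → FourierHyp (tr h x) x E1 E3 := by
  obtain ⟨x0, hx0⟩ := hs (2 * E3)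
  refine ⟨x0, fun x hx => ?_⟩
  intro q _ _ b _ β _
  refine le_trans (le_of_eq ?_) (hx0 x hx β)
  congr 1
  refine sum_congr rfl fun n hn => ?_
  rw [mem_Icc] at hn
  unfold tr
  rw [if_pos hn.2]
  congr 1
  unfold Pool.Agent.H469R2.NK.e Pool.Agent.H807R2.Dav.ee
  congr 1
  push_cast
  ring

lemma Rr_neg (j : ℕ) (r : Fin (j - 1) → ℤ) : Rr j (fun i => (-1) * r i) = - Rr j r := by
  unfold Rr
  rw [← Finset.sum_neg_distrib]
  refine sum_congr rfl fun i _ => ?_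
  simp

lemma Rr_abs (j : ℕ) (H K : ℕ) (hK : 1 ≤ K) (r : Fin (j - 1) → ℤ) (hr : r ∈ bx j (fun _ => H)) (k : ℕ) (hk : k ≤ K) :
    |(Rr j r).eval (k : ℤ)| ≤ (j : ℤ) * (H * (K : ℤ) ^ (j - 1)) := by
  unfold Rr
  rw [eval_finsetSum]
  refine (abs_sum_le_sum_abs _ _).trans ?_
  calc ∑ i : Fin (j - 1), |(C (r i) * X ^ ((i : ℕ) + 1)).eval (k : ℤ)| ≤
      ∑ _i : Fin (j - 1), ((H : ℤ) * (K : ℤ) ^ (j - 1)) := by
        refine sum_le_sum fun i _ => ?_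
        rw [eval_mul, eval_C, eval_pow, eval_X, abs_mul]
        have h1 : |r i| ≤ H := by
          unfold bx at hr
          rw [Fintype.mem_piFinset] at hr
          have := hr i
          rw [mem_Icc] at this
          rw [abs_le]
          exact this
        have h2 : |(k : ℤ) ^ ((i : ℕ) + 1)| ≤ (K : ℤ) ^ (j - 1) := by
          rw [abs_of_nonneg (by positivity)]
          calc (k : ℤ) ^ ((i : ℕ) + 1) ≤ (K : ℤ) ^ ((i : ℕ) + 1) := by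
                apply pow_le_pow_left₀ (by positivity)
                exact_mod_cast hk
            _ ≤ (K : ℤ) ^ (j - 1) := by
                apply pow_le_pow_right₀
                · exact_mod_cast hK
                · have := i.2
                  omega
        exact mul_le_mul h1 h2 (abs_nonneg _) (by positivity)
    _ = ((j - 1 : ℕ) : ℤ) * (H * (K : ℤ) ^ (j - 1)) := by
        rw [sum_const, card_univ, Fintype.card_fin, nsmul_eq_mul]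
    _ ≤ _ := by
        apply mul_le_mul_of_nonneg_right _ (by positivity)
        have : j - 1 ≤ j := Nat.sub_le _ _
        exact_mod_cast this

lemma val_abs (j : ℕ) (hj : 1 ≤ j) (H K : ℕ) (hK : 1 ≤ K) (hjK : j ≤ K) (r : Fin (j - 1) → ℤ) (hH1 : 1 ≤ H)
    (hr : r ∈ bx j (fun _ => H)) (a d k : ℕ) (ha : a ∈ Ioc 0 (0 + (2 * H + 1))) (hd : d ≤ 2 * H) (hk : k ≤ K) (σ : ℤ)
    (hσ : σ = 1 ∨ σ = -1) (m0 : ℤ) (hm0 : m0 = -(H : ℤ) - 1) :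
    |(FF (C m0 + 0 + Rr j r) j σ a d).eval (k : ℤ)| ≤ ((4 * H * K ^ j : ℕ) : ℤ) := by
  have hσ1 : |σ| = 1 := by rcases hσ with h | h <;> rw [h] <;> norm_num
  have h1 := Rr_abs j H K hK r hr k hk
  have e1 : (FF (C m0 + 0 + Rr j r) j σ a d).eval (k : ℤ) = ((a : ℤ) + m0) + (Rr j r).eval (k : ℤ) +
      σ * (d * (k : ℤ) ^ j) := by
    unfold FF
    simp only [eval_add, eval_mul, eval_C, eval_pow, eval_X, eval_zero]
    ring
  rw [e1]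
  rw [mem_Ioc] at ha
  have h2 : |(a : ℤ) + m0| ≤ H := by
    rw [hm0, abs_le]
    constructor <;> omega
  have h3 : |σ * ((d : ℤ) * (k : ℤ) ^ j)| ≤ 2 * H * (K : ℤ) ^ j := by
    rw [abs_mul, hσ1, one_mul, abs_of_nonneg (by positivity)]
    apply mul_le_mul
    · exact_mod_cast hd
    · apply pow_le_pow_left₀ (by positivity)
      exact_mod_cast hk
    · positivity
    · positivity
  have hKj : (K : ℤ) ^ j = (K : ℤ) ^ (j - 1) * K := by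
    rw [← pow_succ]; congr 1; omega
  have h4 : (j : ℤ) * (H * (K : ℤ) ^ (j - 1)) ≤ H * (K : ℤ) ^ j := by
    rw [hKj]
    have : (j : ℤ) ≤ K := by exact_mod_cast hjK
    calc (j : ℤ) * (H * (K : ℤ) ^ (j - 1)) ≤ K * (H * (K : ℤ) ^ (j - 1)) := by gcongr
      _ = _ := by ring
  have h5 : (H : ℤ) ≤ H * (K : ℤ) ^ j := by
    apply le_mul_of_one_le_right (by positivity)
    apply one_le_pow₀
    exact_mod_cast hK
  calc |(a : ℤ) + m0 + (Rr j r).eval (k : ℤ) + σ * (d * (k : ℤ) ^ j)| ≤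
      |(a : ℤ) + m0| + |(Rr j r).eval (k : ℤ)| + |σ * (d * (k : ℤ) ^ j)| := by
        refine (abs_add_le _ _).trans ?_
        gcongr
        exact abs_add_le _ _
    _ ≤ H * (K : ℤ) ^ j + H * (K : ℤ) ^ j + 2 * H * (K : ℤ) ^ j := by
        gcongr
        · exact h2.trans h5
        · exact h1.trans h4
    _ = _ := by
        push_cast
        ring

/-- reflection of the box -/
lemma reflect (j H : ℕ) (D : Finset ℕ) (G : (Fin (j - 1) → ℤ) → ℕ → ℕ → ℝ) :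
    ∑ r ∈ bx j (fun _ => H), ∑ a ∈ Ioc 0 (0 + (2 * H + 1)), ∑ d ∈ D, G (fun i => (-1) * r i) (2 * H + 2 - a) d =
    ∑ r ∈ bx j (fun _ => H), ∑ a ∈ Ioc 0 (0 + (2 * H + 1)), ∑ d ∈ D, G r a d := by
  have h1 : ∀ r : Fin (j - 1) → ℤ, ∑ a ∈ Ioc 0 (0 + (2 * H + 1)), ∑ d ∈ D, G (fun i => (-1) * r i) (2 * H + 2 - a) d =
      ∑ a ∈ Ioc 0 (0 + (2 * H + 1)), ∑ d ∈ D, G (fun i => (-1) * r i) a d := by
    intro r
    refine sum_bij' (fun a _ => 2 * H + 2 - a) (fun a _ => 2 * H + 2 - a) ?_ ?_ ?_ ?_ ?_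
    · intro a ha
      rw [mem_Ioc] at ha ⊢
      omega
    · intro a ha
      rw [mem_Ioc] at ha ⊢
      omega
    · intro a ha
      rw [mem_Ioc] at ha
      show 2 * H + 2 - (2 * H + 2 - a) = a
      omega
    · intro a ha
      rw [mem_Ioc] at ha
      show 2 * H + 2 - (2 * H + 2 - a) = a
      omega
    · intro a _
      rfl
  rw [sum_congr rfl fun r _ => h1 r]
  exact sum_bx_neg j (fun _ => H) (-1) (Or.inr rfl) (fun r => ∑ a ∈ Ioc 0 (0 + (2 * H + 1)), ∑ d ∈ D, G r a d)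

/-- the sum over `k`, one sign -/
noncomputable def G (g : ℕ → ℂ) (T : Finset ℕ) (j H : ℕ) (σ : ℤ) (r : Fin (j - 1) → ℤ) (a d : ℕ) : ℂ :=
  ∑ k ∈ T, fz g ((FF (C (-(H : ℤ) - 1) + 0 + Rr j r) j σ a d).eval (k : ℤ))

lemma G_split (g : ℕ → ℂ) (T : Finset ℕ) (j H : ℕ) (r : Fin (j - 1) → ℤ) (a d : ℕ) (ha : a ∈ Ioc 0 (0 + (2 * H + 1))) :
    ∑ k ∈ T, (fz g ((FP j H r a d).eval (k : ℤ)) + fz g (-(FP j H r a d).eval (k : ℤ))) =
    G g T j H 1 r a d + G g T j H (-1) (fun i => (-1) * r i) (2 * H + 2 - a) d := by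
  unfold G
  rw [sum_add_distrib]
  congr 1
  refine sum_congr rfl fun k _ => ?_
  congr 1
  rw [mem_Ioc] at ha
  unfold FP FF
  rw [Rr_neg]
  simp only [eval_add, eval_mul, eval_C, eval_pow, eval_X, eval_zero, eval_neg]
  have : ((2 * H + 2 - a : ℕ) : ℤ) = 2 * H + 2 - a := by omega
  rw [this]
  ring

lemma two_signs (g : ℕ → ℂ) (T D : Finset ℕ) (j H : ℕ) :
    ∑ r ∈ bx j (fun _ => H), ∑ a ∈ Ioc 0 (0 + (2 * H + 1)), ∑ d ∈ D,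
      ‖∑ k ∈ T, (fz g ((FP j H r a d).eval (k : ℤ)) + fz g (-(FP j H r a d).eval (k : ℤ)))‖ ^ 2 ≤
    2 * ∑ r ∈ bx j (fun _ => H), ∑ a ∈ Ioc 0 (0 + (2 * H + 1)), ∑ d ∈ D, ‖G g T j H 1 r a d‖ ^ 2 +
    2 * ∑ r ∈ bx j (fun _ => H), ∑ a ∈ Ioc 0 (0 + (2 * H + 1)), ∑ d ∈ D, ‖G g T j H (-1) r a d‖ ^ 2 := by
  have h1 := reflect j H D (fun r a d => ‖G g T j H (-1) r a d‖ ^ 2)
  rw [← h1]
  calc _ ≤ ∑ r ∈ bx j (fun _ => H), ∑ a ∈ Ioc 0 (0 + (2 * H + 1)), ∑ d ∈ D,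
        (2 * ‖G g T j H 1 r a d‖ ^ 2 + 2 * ‖G g T j H (-1) (fun i => (-1) * r i) (2 * H + 2 - a) d‖ ^ 2) := by
        refine sum_le_sum fun r _ => sum_le_sum fun a ha => sum_le_sum fun d _ => ?_
        rw [G_split g T j H r a d ha]
        exact norm_add_sq_le _ _
    _ = _ := by
        simp only [sum_add_distrib, mul_sum]

lemma one_sign {h : ℕ → ℂ} (j : ℕ) (hj : 1 ≤ j) (H K K1 x q0 r0 D U V B1 x1 E1 E3 W : ℕ) (ε' : ℝ) (L : ℝ) (hL1 : 1 ≤ L)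
    (hLx : L ≤ Real.log x) (hHn : 3 ≤ H) (hK1n : 1 ≤ K) (hjKn : j ≤ K) (hx : x = 4 * H * K ^ j)
    (hHx1 : x1 ≤ x) (hfour : FourierHyp (tr h x) x E1 E3) (hb : ∀ n, ‖h n‖ ≤ 1)
    (hcore : ∀ x : ℕ, x1 ≤ x → ∀ f : ℕ → ℂ, (∀ n, x < n → f n = 0) →
    FourierHyp f x E1 E3 → ∑ n ∈ Icc 1 x, ‖f n‖ ^ 2 ≤ x * Real.log x ^ 2 → ∀ (q0 r0 : ℕ), 1 ≤ q0 → (q0 : ℝ) ≤ Real.log x ^ W →
    ∀ (D K K1 A A1 a0 : ℕ) (R : ℤ[X]) (m0 : ℤ) (H : Fin (j - 1) → ℕ) (σ : ℤ), 2 * D * K ^ j ≤ x →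
    (x : ℝ) ≤ D * (K : ℝ) ^ j * Real.log x ^ (U + 3) → (x : ℝ) ^ ε' ≤ K → K1 ≤ K →
    (K : ℝ) ≤ K1 * Real.log x ^ V → (K : ℝ) * Real.log x ^ B1 ≤ A1 → A1 ≤ A →
    (∀ i, A1 ≤ 2 * H i + 1) → (A1 : ℝ) ≤ D * Real.log x ^ (U + 3) → A ≤ x →
    (∀ k ∈ Ioc K1 K, |((R.eval (k : ℤ) : ℤ) : ℝ)| ≤ (K : ℝ) ^ j / Real.log x ^ B1) →
    (∀ i, (H i : ℝ) * Real.log x ^ B1 ≤ D * (K : ℝ) ^ (j - 1 - (i : ℕ))) →
    (∀ r ∈ bx j H, ∀ a ∈ Ioc a0 (a0 + A), ∀ d ∈ Ioc D (2 * D), ∀ k ∈ Ioc K1 K,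
      |(FF (C m0 + R + Rr j r) j σ a d).eval (k : ℤ)| ≤ 15 * (x : ℤ)) →
    (σ = 1 ∨ σ = -1) →
    ∑ r ∈ bx j H, ∑ a ∈ Ioc a0 (a0 + A), ∑ d ∈ Ioc D (2 * D),
      ‖∑ k ∈ (Ioc K1 K).filter (fun k => k % q0 = r0), fz f ((FF (C m0 + R + Rr j r) j σ a d).eval (k : ℤ))‖ ^ 2 ≤
      ((bx j H).card : ℝ) * (A * x * ((K : ℝ) ^ 2 / (K : ℝ) ^ j) / Real.log x ^ (2 * U + 6)))
    (hq0 : 1 ≤ q0) (hq0L : (q0 : ℝ) ≤ L ^ W) (hxK : (x : ℝ) ^ ε' ≤ K) (hK1 : K1 ≤ K) (hK1L : (K : ℝ) ≤ K1 * L ^ V)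
    (σ : ℤ) (hσ : σ = 1 ∨ σ = -1) (hDH : D ≤ H) (hHD : (H:ℝ) ≤ D * L ^ (U + 2))
    (p2 : (x : ℝ) ≤ D * (K : ℝ) ^ j * Real.log x ^ (U + 3))
    (p3 : (K : ℝ) * Real.log x ^ B1 ≤ ((2 * H + 1 : ℕ) : ℝ))
    (p4 : (((2 * H + 1 : ℕ) : ℝ)) ≤ D * Real.log x ^ (U + 3)) (p5 : 2 * H + 1 ≤ x)
    (p6 : (∀ i : Fin (j - 1), (H : ℝ) * Real.log x ^ B1 ≤ D * (K : ℝ) ^ (j - 1 - (i : ℕ)))) :
    ∑ r ∈ bx j (fun _ => H), ∑ a ∈ Ioc 0 (0 + (2 * H + 1)), ∑ d ∈ Ioc D (2 * D),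
        ‖G (tr h x) ((Ioc K1 K).filter (fun k => k % q0 = r0)) j H σ r a d‖ ^ 2 ≤
        (((bx j (fun _ => H)).card : ℝ) * ((2 * H + 1 : ℕ) : ℝ) * (K : ℝ) ^ 2 * 4 / L ^ (U + 4)) * D := by
  have hL0 : 0 < L := by linarith
  have hLx1 : 1 ≤ Real.log x := by linarith
  have hLx0 : 0 < Real.log x := by linarith
  have hLp0 : ∀ n : ℕ, 0 < L ^ n := fun n => by positivity
  have hK0 : (0:ℝ) < K := by exact_mod_cast hK1n
  have hKjr : (0:ℝ) < (K:ℝ) ^ j := by positivity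
  have hxr : (x:ℝ) = 4 * H * (K:ℝ) ^ j := by rw [hx]; push_cast; ring
  have hsq : ∑ n ∈ Icc 1 x, ‖tr h x n‖ ^ 2 ≤ x * Real.log x ^ 2 := by
    calc ∑ n ∈ Icc 1 x, ‖tr h x n‖ ^ 2 ≤ ∑ n ∈ Icc 1 x, (1:ℝ) := by
          refine sum_le_sum fun n _ => ?_
          have : ‖tr h x n‖ ≤ 1 := by
            unfold tr
            split_ifs
            · exact hb n
            · simp
          exact pow_le_one₀ (norm_nonneg _) this
      _ = x := by simp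
      _ ≤ x * Real.log x ^ 2 := le_mul_of_one_le_right (Nat.cast_nonneg _) (one_le_pow₀ hLx1)
  have h1 := hcore x hHx1 (tr h x) (fun n hn => by
      unfold tr
      rw [if_neg (by omega)]) hfour hsq q0 r0 hq0 (hq0L.trans (by gcongr)) D K K1
      (2 * H + 1) (2 * H + 1) 0 0 (-(H:ℤ) - 1) (fun _ => H) σ (by
        rw [hx]
        calc 2 * D * K ^ j ≤ 2 * H * K ^ j := by gcongr
          _ ≤ 4 * H * K ^ j := by gcongr; norm_num) p2 hxK hK1 (hK1L.trans (by gcongr)) p3 le_rfl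
      (fun _ => le_rfl) p4 p5 (by
        intro k _
        simp only [eval_zero, Int.cast_zero, abs_zero]
        positivity) p6 (by
        intro r hr a ha d hd k hk
        rw [mem_Ioc] at hd hk
        refine (val_abs j hj H K hK1n hjKn r (by omega) hr a d k ha (by omega) hk.2 σ hσ _ rfl).trans ?_
        rw [← hx]
        omega) hσ
  unfold G
  refine h1.trans ?_
  have e1 : (((2 * H + 1 : ℕ) : ℝ)) * x * ((K : ℝ) ^ 2 / (K : ℝ) ^ j) = ((2 * H + 1 : ℕ) : ℝ) * (4 * H) * (K : ℝ) ^ 2 := by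
    rw [hxr]
    field_simp
  rw [e1]
  calc ((bx j (fun _ => H)).card : ℝ) * (((2 * H + 1 : ℕ) : ℝ) * (4 * H) * (K : ℝ) ^ 2 / Real.log x ^ (2 * U + 6)) ≤
        ((bx j (fun _ => H)).card : ℝ) * (((2 * H + 1 : ℕ) : ℝ) * (4 * (D * L ^ (U + 2))) * (K : ℝ) ^ 2 / L ^ (2 * U + 6)) := by
          gcongr
      _ = _ := by
          rw [show 2 * U + 6 = (U + 2) + (U + 4) by ring, pow_add L (U + 2) (U + 4)]
          field_simp

/-- **Second moment over the full box** -/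
theorem mean_one {h : ℕ → ℂ} (hb : ∀ n, ‖h n‖ ≤ 1) (hs : SupSmall h) (j : ℕ) (hj : 1 ≤ j) (ε : ℝ) (hε : 0 < ε)
    (V U W : ℕ) : ∃ B H0 : ℕ, ∀ H : ℕ, H0 ≤ H → ∀ K K1 : ℕ, (H : ℝ) ^ ε ≤ K → (K : ℝ) * Real.log H ^ B ≤ H →
    K1 ≤ K → (K : ℝ) ≤ K1 * Real.log H ^ V → ∀ q0 r0 : ℕ, 1 ≤ q0 → (q0 : ℝ) ≤ Real.log H ^ W →
    ∑ r ∈ bx j (fun _ => H), ∑ a ∈ Ioc 0 (0 + (2 * H + 1)), ∑ d ∈ Ioc 0 H,
      ‖∑ k ∈ (Ioc K1 K).filter (fun k => k % q0 = r0), hz h ((FP j H r a d).eval (k : ℤ))‖ ^ 2 ≤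
      ((bx j (fun _ => H)).card : ℝ) * ((2 * H + 1 : ℕ) : ℝ) * H * (K : ℝ) ^ 2 / Real.log H ^ U := by
  classical
  obtain ⟨E1, E3, B1, x1, -, hcore⟩ := coreQ j hj (ε / (j + 2)) (by positivity) (U + 3) V (U + 3) (2 * U + 6) 0 W
  obtain ⟨x2, hfour⟩ := four hs E1 E3
  obtain ⟨H1, hpar⟩ := params j hj ε hε U B1
  have hev : ∀ᶠ H : ℕ in atTop, H1 ≤ H ∧ x1 ≤ H ∧ x2 ≤ H ∧ 32 ≤ Real.log H ∧
      Real.log H ^ (U + 2) ≤ (H:ℝ) ^ (1:ℝ) ∧ 3 ≤ H ∧ (j : ℝ) ≤ (H:ℝ) ^ ε ∧ (1:ℝ) ≤ (H:ℝ) ^ ε := by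
    filter_upwards [eventually_ge_atTop H1, eventually_ge_atTop x1, eventually_ge_atTop x2,
      evt_log_ge 32, evt_log_pow (U + 2) 1 (by norm_num), eventually_ge_atTop 3, evt_log_pow 1 ε hε,
      evt_log_ge j, evt_log_pow 0 ε hε]
      with H h1 h2 h3 h4 h5 h6 h7 h8 h9
    exact ⟨h1, h2, h3, h4, h5, h6, by rw [pow_one] at h7; linarith, by simpa using h9⟩
  obtain ⟨H0, hH0⟩ := eventually_atTop.mp hev
  refine ⟨B1 + 1, H0, fun H hH K K1 hK hKH hK1 hK1L q0 r0 hq0 hq0L => ?_⟩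
  obtain ⟨hH1, hHx1, hHx2, hL8, hLH, hHn, hjK, h1K⟩ := hH0 H hH
  rw [Real.rpow_one] at hLH
  obtain ⟨L, hLdef⟩ : ∃ L, L = Real.log H := ⟨_, rfl⟩
  rw [← hLdef] at hK1L hq0L hL8 hLH hKH ⊢
  have hL0 : 0 < L := by linarith
  have hL1 : 1 ≤ L := by linarith
  have hLp0 : ∀ n : ℕ, 0 < L ^ n := fun n => by positivity
  have hHr : (3:ℝ) ≤ H := by exact_mod_cast hHn
  have hH0' : (0:ℝ) < H := by linarith
  have hK0 : (0:ℝ) < K := lt_of_lt_of_le (Real.rpow_pos_of_pos hH0' _) hK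
  have hK1n : 1 ≤ K := by exact_mod_cast h1K.trans hK
  have hjKn : j ≤ K := by exact_mod_cast hjK.trans hK
  obtain ⟨M, hM⟩ : ∃ M, M = ⌈(H:ℝ) / L ^ (U + 2)⌉₊ := ⟨_, rfl⟩
  have hMge : (H:ℝ) / L ^ (U + 2) ≤ M := by rw [hM]; exact Nat.le_ceil _
  have hMle : (M:ℝ) ≤ 2 * (H / L ^ (U + 2)) := by
    have h1 : (M:ℝ) < H / L ^ (U + 2) + 1 := by rw [hM]; exact Nat.ceil_lt_add_one (by positivity)
    have h2 : 1 ≤ (H:ℝ) / L ^ (U + 2) := by rw [le_div_iff₀ (hLp0 _), one_mul]; exact hLH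
    linarith
  have hM1 : 1 ≤ M := by
    have h2 : 0 < (H:ℝ) / L ^ (U + 2) := by positivity
    exact Nat.one_le_iff_ne_zero.mpr (by
      intro h0
      rw [h0] at hMge
      simp only [Nat.cast_zero] at hMge
      linarith)
  obtain ⟨x, hx⟩ : ∃ x, x = 4 * H * K ^ j := ⟨_, rfl⟩
  obtain ⟨hHx, hLx, hpow, hLx2, hxK, hp⟩ := hpar H hH1 K M hK (by rw [← hLdef]; exact hKH)
    (by rw [← hLdef]; exact hMge) x hx
  rw [← hLdef] at hLx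
  obtain ⟨bc, hbc⟩ : ∃ bc : ℝ, bc = ((bx j (fun _ => H)).card : ℝ) := ⟨_, rfl⟩
  have hbc0 : 0 ≤ bc := by rw [hbc]; exact Nat.cast_nonneg _
  have hAc : ((Ioc 0 (0 + (2 * H + 1))).card : ℝ) = ((2 * H + 1 : ℕ) : ℝ) := by
    rw [Nat.card_Ioc]; simp
  have hLx0 : 0 < Real.log x := by linarith
  have hLx1 : 1 ≤ Real.log x := by linarith
  obtain ⟨T, hT⟩ : ∃ T, T = (Ioc K1 K).filter (fun k => k % q0 = r0) := ⟨_, rfl⟩
  -- the trivial bound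
  have htriv : ∀ r a d, ‖∑ k ∈ T, (fz (tr h x) ((FP j H r a d).eval (k : ℤ)) +
      fz (tr h x) (-(FP j H r a d).eval (k : ℤ)))‖ ^ 2 ≤ (K:ℝ) ^ 2 := by
    intro r a d
    apply pow_le_pow_left₀ (norm_nonneg _)
    refine (norm_sum_le _ _).trans ?_
    have hb' : ∀ n, ‖tr h x n‖ ≤ 1 := by
      intro n
      unfold tr
      split_ifs
      · exact hb n
      · simp
    calc ∑ k ∈ T, ‖fz (tr h x) ((FP j H r a d).eval (k : ℤ)) + fz (tr h x) (-(FP j H r a d).eval (k : ℤ))‖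
        ≤ ∑ k ∈ T, (1:ℝ) := sum_le_sum fun k _ => hz_le hb' _
      _ = T.card := by simp
      _ ≤ K := by
          rw [hT]
          have h1 := card_filter_le (Ioc K1 K) (fun k => k % q0 = r0)
          rw [Nat.card_Ioc] at h1
          exact_mod_cast h1.trans (Nat.sub_le _ _)
  have hmain := dyad_box j H M hM1 (bx j (fun _ => H)) (Ioc 0 (0 + (2 * H + 1)))
    (fun r a d => ‖∑ k ∈ T, (fz (tr h x) ((FP j H r a d).eval (k : ℤ)) +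
      fz (tr h x) (-(FP j H r a d).eval (k : ℤ)))‖ ^ 2)
    (fun r a d => by positivity) ((K:ℝ) ^ 2) (bc * ((2 * H + 1 : ℕ) : ℝ) * (K:ℝ) ^ 2 / L ^ (U + 2))
    (fun r _ a _ d _ => htriv r a d) (by positivity)
    (by
      intro D hMD hDH
      obtain ⟨p1, p2, p3, p4, p5, p6⟩ := hp D hMD hDH B1 le_rfl
      have hHD : (H:ℝ) ≤ D * L ^ (U + 2) := by
        have h1 : (H:ℝ) / L ^ (U + 2) ≤ D := hMge.trans (by exact_mod_cast hMD)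
        rwa [div_le_iff₀ (hLp0 _)] at h1
      have hos : ∀ σ : ℤ, (σ = 1 ∨ σ = -1) → ∑ r ∈ bx j (fun _ => H), ∑ a ∈ Ioc 0 (0 + (2 * H + 1)), ∑ d ∈ Ioc D (2 * D),
          ‖G (tr h x) T j H σ r a d‖ ^ 2 ≤
          (bc * ((2 * H + 1 : ℕ) : ℝ) * (K : ℝ) ^ 2 * 4 / L ^ (U + 4)) * D := by
        intro σ hσ
        rw [hbc, hT]
        exact one_sign j hj H K K1 x q0 r0 D U V B1 x1 E1 E3 W (ε / (j + 2)) L hL1 hLx hHn hK1n hjKn hx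
          (hHx1.trans hHx) (hfour x (hHx2.trans hHx)) hb hcore hq0 hq0L hxK hK1 hK1L σ hσ hDH hHD p2 p3 p4 p5 p6
      refine (two_signs (tr h x) T (Ioc D (2 * D)) j H).trans ?_
      have h1 := hos 1 (Or.inl rfl)
      have h2 := hos (-1) (Or.inr rfl)
      have h3 : bc * ((2 * H + 1 : ℕ) : ℝ) * (K : ℝ) ^ 2 * 4 / L ^ (U + 4) * D * 4 ≤
          bc * ((2 * H + 1 : ℕ) : ℝ) * (K : ℝ) ^ 2 / L ^ (U + 2) * D := by
        have h4 : bc * ((2 * H + 1 : ℕ) : ℝ) * (K : ℝ) ^ 2 * 4 / L ^ (U + 4) * D * 4 =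
            (bc * ((2 * H + 1 : ℕ) : ℝ) * (K : ℝ) ^ 2 / L ^ (U + 2) * D) * (16 / L ^ 2) := by
          rw [show U + 4 = U + 2 + 2 by ring, pow_add L (U + 2) 2]
          field_simp
          ring
        rw [h4]
        apply mul_le_of_le_one_right (by positivity)
        rw [div_le_one (by positivity)]
        nlinarith
      linarith)
  have hlhs : ∑ r ∈ bx j (fun _ => H), ∑ a ∈ Ioc 0 (0 + (2 * H + 1)), ∑ d ∈ Ioc 0 H,
      ‖∑ k ∈ T, hz h ((FP j H r a d).eval (k : ℤ))‖ ^ 2 =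
      ∑ r ∈ bx j (fun _ => H), ∑ a ∈ Ioc 0 (0 + (2 * H + 1)), ∑ d ∈ Ioc 0 H,
      ‖∑ k ∈ T, (fz (tr h x) ((FP j H r a d).eval (k : ℤ)) +
      fz (tr h x) (-(FP j H r a d).eval (k : ℤ)))‖ ^ 2 := by
    refine sum_congr rfl fun r hr => sum_congr rfl fun a ha => sum_congr rfl fun d hd => ?_
    congr 2
    refine sum_congr rfl fun k hk => ?_
    have hkK : k ≤ K := by
      rw [hT, mem_filter, mem_Ioc] at hk
      exact hk.1.2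
    have hv := val_abs j hj H K hK1n hjKn r (by omega) hr a d k ha (by
      rw [mem_Ioc] at hd
      omega) hkK 1 (Or.inl rfl) _ rfl
    rw [← hx] at hv
    have hv' : |(FP j H r a d).eval (k : ℤ)| ≤ (x : ℤ) := hv
    rw [abs_le] at hv'
    unfold hz
    rw [fz_tr h x _ hv'.2, fz_tr h x _ (by linarith [hv'.1])]
  rw [← hT, hlhs]
  refine hmain.trans ?_
  rw [hAc, ← hbc]
  obtain ⟨AH, hAH⟩ : ∃ AH : ℝ, AH = ((2 * H + 1 : ℕ) : ℝ) := ⟨_, rfl⟩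
  rw [← hAH]
  have hAH0 : 0 ≤ AH := by rw [hAH]; exact Nat.cast_nonneg _
  calc bc * AH * M * (K:ℝ) ^ 2 + 2 * (bc * AH * (K:ℝ) ^ 2 / L ^ (U + 2)) * H
      ≤ bc * AH * (2 * (H / L ^ (U + 2))) * (K:ℝ) ^ 2 + 2 * (bc * AH * (K:ℝ) ^ 2 / L ^ (U + 2)) * H := by
        gcongr
    _ = (bc * AH * H * (K:ℝ) ^ 2 / L ^ U) * (4 / L ^ 2) := by
        rw [pow_add]
        field_simp
        ring
    _ ≤ (bc * AH * H * (K:ℝ) ^ 2 / L ^ U) * 1 := by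
        apply mul_le_mul_of_nonneg_left _ (by positivity)
        rw [div_le_one (by positivity)]
        nlinarith
    _ = _ := mul_one _

end Pool.Agent.N718.PC
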